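import Mathlib
import Pool.Agent.Lib.MP_b81b72_gt.Conn

/-!
# A functorial topology which is Hausdorff and connected on the group of 2-adic integers
-/

set_option autoImplicit false

namespace Pool.Agent.Results.MP_b81b72_gt.ConnectedPadic

open Pool.Agent.Lib.MP_b81b72_gt

/-- A functorial topology on the category of all abelian groups (of a fixed universe): a group
topology on every abelian group, not required to be Hausdorff, such that all homomorphisms are
continuous. -/
structure FunctorialTopology.{u} where
  /-- the topology of `G` -/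
  top : ∀ (G : Type u) [AddCommGroup G], TopologicalSpace G
  /-- addition and negation are continuous -/
  isGroupTopology : ∀ (G : Type u) [AddCommGroup G], @IsTopologicalAddGroup G (top G) _
  /-- homomorphisms are continuous -/
  continuous_hom : ∀ (G H : Type u) [AddCommGroup G] [AddCommGroup H] (φ : G →+ H),
    @Continuous G H (top G) (top H) φ

/-- A topological space is zero-dimensional if it has a base of clopen sets. -/
def ZeroDimensional.{u} (X : Type u) [TopologicalSpace X] : Prop :=
  ∃ B : Set (Set X), TopologicalSpace.IsTopologicalBasis B ∧ ∀ s ∈ B, IsClopen s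

/-- There is a functorial topology whose value on (a copy of) the group of 2-adic integers is
Hausdorff, even metrizable, but connected and locally connected, hence not zero-dimensional. -/
theorem result.{u} : ∃ T : FunctorialTopology.{u}, ∃ (G : Type u) (_ : AddCommGroup G),
    Nonempty (G ≃+ ℤ_[2]) ∧ Infinite G ∧ @T2Space G (T.top G) ∧
      @TopologicalSpace.MetrizableSpace G (T.top G) ∧ @ConnectedSpace G (T.top G) ∧
      @LocallyConnectedSpace G (T.top G) ∧ ¬ @ZeroDimensional G (T.top G) := by
  obtain ⟨f, hinj, hf⟩ := exists_embedding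
  let e : ULift.{u} ℤ_[2] ≃+ ℤ_[2] := AddEquiv.ulift
  refine ⟨⟨fun G _ => TU f G, fun G _ => TU_group f G, fun G H _ _ φ => TU_functorial f G H φ⟩,
    ULift.{u} ℤ_[2], inferInstance, ⟨e⟩, inferInstance, ?_⟩
  change @T2Space _ (TU f (ULift.{u} ℤ_[2])) ∧ @TopologicalSpace.MetrizableSpace _
    (TU f (ULift.{u} ℤ_[2])) ∧ @ConnectedSpace _ (TU f (ULift.{u} ℤ_[2])) ∧
    @LocallyConnectedSpace _ (TU f (ULift.{u} ℤ_[2])) ∧
    ¬ @ZeroDimensional _ (TU f (ULift.{u} ℤ_[2]))
  rw [TU_padic f (ULift.{u} ℤ_[2]) e]
  let _ : TopologicalSpace ℤ_[2] := TopologicalSpace.induced f inferInstance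
  let _ : TopologicalSpace (ULift.{u} ℤ_[2]) :=
    TopologicalSpace.induced (fun x => f (e x)) inferInstance
  have hemb : Topology.IsEmbedding (fun x : ULift.{u} ℤ_[2] => f (e x)) :=
    ⟨⟨rfl⟩, hinj.comp e.injective⟩
  have hemb' : Topology.IsEmbedding (f : ℤ_[2] → ℂ) := ⟨⟨rfl⟩, hinj⟩
  have hec : Continuous e := by
    rw [hemb'.continuous_iff]
    exact hemb.continuous
  have hec' : Continuous e.symm := by
    rw [hemb.continuous_iff]
    have : (fun x : ULift.{u} ℤ_[2] => f (e x)) ∘ e.symm = f := by
      ext x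
      simp
    rw [this]
    exact hemb'.continuous
  let h : ULift.{u} ℤ_[2] ≃ₜ ℤ_[2] := ⟨e.toEquiv, hec, hec'⟩
  have hconn : ConnectedSpace (ULift.{u} ℤ_[2]) := by
    have := connected_induced hf
    exact h.symm.surjective.connectedSpace h.symm.continuous
  have hlc : LocallyConnectedSpace (ULift.{u} ℤ_[2]) := by
    have := locallyConnected_induced hf
    exact h.isOpenEmbedding.locallyConnectedSpace
  have ht2 : T2Space (ULift.{u} ℤ_[2]) := hemb.t2Space
  refine ⟨ht2, hemb.metrizableSpace, hconn, hlc, ?_⟩
  rintro ⟨B, hB, hBc⟩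
  obtain ⟨x, y, hxy⟩ := exists_pair_ne (ULift.{u} ℤ_[2])
  obtain ⟨U, hUB, hxU, hU⟩ := hB.exists_subset_of_mem_open (a := x) (u := {y}ᶜ)
    (by simpa using hxy) isOpen_compl_singleton
  rcases isClopen_iff.mp (hBc U hUB) with hE | hE
  · rw [hE] at hxU
    exact hxU
  · have : y ∈ U := by rw [hE]; trivial
    exact hU this rfl

end Pool.Agent.Results.MP_b81b72_gt.ConnectedPadic
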